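import Pool.Agent.Lib.MP_715eb0_an.Defs

/-!
# Finitely supported ergodic measures invariant under `x ↦ 2x` and `x ↦ 3x`: second moments

The classification of these measures (orbits of `2` and `3` on the points of order `q`, `q` coprime to `6`), the second
moment of the Fourier coefficients over all orbits of points of order `q`, the bound `q < 2 ^ N` for the number `N` of
atoms, `q ≤ √(2N+1) φ(q)`, and the convergence inside the set `G` of measures with small Fourier coefficients.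
-/

open MeasureTheory Filter Finset
open scoped ENNReal Topology

namespace Pool.Agent.Lib.MP_715eb0_an

/-! ### Residues `2 ^ i 3 ^ j` -/

open Classical in
/-- the residues of `2 ^ i 3 ^ j` modulo `q` -/
noncomputable def R (q : ℕ) : Finset ℕ := (range q).filter (fun r => ∃ i j : ℕ, 2 ^ i * 3 ^ j % q = r)

lemma mem_R {q r : ℕ} (hq : 0 < q) : r ∈ R q ↔ ∃ i j : ℕ, 2 ^ i * 3 ^ j % q = r := by
  classical
  simp only [R, mem_filter, mem_range]
  constructor
  · exact fun h => h.2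
  · rintro ⟨i, j, h⟩
    exact ⟨h ▸ Nat.mod_lt _ hq, i, j, h⟩

/-- the number of residues of `2 ^ i 3 ^ j` modulo `q` -/
noncomputable def cnt (q : ℕ) : ℕ := (R q).card

lemma pos_of_coprime {q : ℕ} (hq : q.Coprime 6) : 0 < q := by
  rcases Nat.eq_zero_or_pos q with h | h
  · subst h; norm_num at hq
  · exact h

lemma coprime_two_three {q : ℕ} (hq : q.Coprime 6) (i j : ℕ) : (2 ^ i * 3 ^ j).Coprime q := by
  have h2 : Nat.Coprime 2 q := (Nat.Coprime.coprime_dvd_right (by norm_num) hq).symm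
  have h3 : Nat.Coprime 3 q := (Nat.Coprime.coprime_dvd_right (by norm_num) hq).symm
  exact Nat.Coprime.mul_left (h2.pow_left i) (h3.pow_left j)

lemma cnt_pos {q : ℕ} (hq : 0 < q) : 0 < cnt q :=
  card_pos.mpr ⟨_, (mem_R hq).mpr ⟨0, 0, rfl⟩⟩

/-- `q < 2 ^ N`. -/
lemma lt_two_pow_cnt {q : ℕ} (hq : q.Coprime 6) : q < 2 ^ cnt q := by
  have hq0 := pos_of_coprime hq
  have h := Finset.exists_ne_map_eq_of_card_lt_of_maps_to (s := range (cnt q + 1)) (t := R q)
    (by simp [cnt]) (f := fun i => 2 ^ i % q)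
    (fun i _ => (mem_R hq0).mpr ⟨i, 0, by simp⟩)
  obtain ⟨a, ha, b, hb, hab, he⟩ := h
  have key : ∀ a b : ℕ, a < b → b < cnt q + 1 → 2 ^ a % q = 2 ^ b % q → q < 2 ^ cnt q := by
    intro a b hab hb he
    obtain ⟨d, rfl⟩ := Nat.exists_eq_add_of_lt hab
    have h2 : Nat.Coprime (2 ^ a) q := by simpa using coprime_two_three hq a 0
    have h3 : 2 ^ a * 1 ≡ 2 ^ a * 2 ^ (d + 1) [MOD q] := by
      rw [mul_one, ← pow_add]; exact he
    have h4 : 1 ≡ 2 ^ (d + 1) [MOD q] := Nat.ModEq.cancel_left_of_coprime (by rwa [Nat.coprime_comm] at h2) h3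
    have h5 : q ∣ 2 ^ (d + 1) - 1 := (Nat.modEq_iff_dvd' Nat.one_le_two_pow).mp h4
    have h6 : 2 ≤ 2 ^ (d + 1) := by
      calc 2 = 2 ^ 1 := by norm_num
        _ ≤ 2 ^ (d + 1) := Nat.pow_le_pow_right (by norm_num) (by omega)
    have h7 : q ≤ 2 ^ (d + 1) - 1 := Nat.le_of_dvd (by omega) h5
    have h8 : 2 ^ (d + 1) ≤ 2 ^ cnt q := Nat.pow_le_pow_right (by norm_num) (by omega)
    omega
  rw [mem_range] at ha hb
  rcases lt_or_gt_of_ne hab with h | h
  · exact key a b h hb he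
  · exact key b a h ha he.symm

/-! ### Orbits -/

/-- the orbit of `x` under multiplication by `2` and `3` -/
noncomputable def Orb (x : T) : Finset T := by
  classical exact (R (addOrderOf x)).image (fun r => r • x)

lemma mem_Orb {x y : T} (hx : 0 < addOrderOf x) : y ∈ Orb x ↔ ∃ i j : ℕ, (2 ^ i * 3 ^ j) • x = y := by
  classical
  simp only [Orb, mem_image]
  constructor
  · rintro ⟨r, hr, h⟩
    obtain ⟨i, j, hij⟩ := (mem_R hx).mp hr
    exact ⟨i, j, by rw [← h, ← hij, mod_addOrderOf_nsmul]⟩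
  · rintro ⟨i, j, h⟩
    exact ⟨2 ^ i * 3 ^ j % addOrderOf x, (mem_R hx).mpr ⟨i, j, rfl⟩, by rw [mod_addOrderOf_nsmul, h]⟩

lemma sum_Orb {M : Type*} [AddCommMonoid M] (x : T) (F : T → M) :
    ∑ y ∈ Orb x, F y = ∑ r ∈ R (addOrderOf x), F (r • x) := by
  classical
  rw [Orb, sum_image]
  intro r hr s hs h
  have hr' : r ∈ Set.Iio (addOrderOf x) := by
    have := hr; simp only [R, coe_filter, mem_range, Set.mem_ofPred_eq] at this; exact this.1
  have hs' : s ∈ Set.Iio (addOrderOf x) := by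
    have := hs; simp only [R, coe_filter, mem_range, Set.mem_ofPred_eq] at this; exact this.1
  exact nsmul_injOn_Iio_addOrderOf hr' hs' h

lemma card_Orb (x : T) : (Orb x).card = cnt (addOrderOf x) := by
  have := sum_Orb x (fun _ => 1)
  simpa [cnt] using this

lemma order_of_mem_Orb {x y : T} (hx : (addOrderOf x).Coprime 6) (hy : y ∈ Orb x) :
    addOrderOf y = addOrderOf x := by
  obtain ⟨i, j, rfl⟩ := (mem_Orb (pos_of_coprime hx)).mp hy
  exact Nat.Coprime.addOrderOf_nsmul (coprime_two_three hx i j).symm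

lemma mem_Orb_symm {x y : T} (hx : (addOrderOf x).Coprime 6) (hy : y ∈ Orb x) : x ∈ Orb y := by
  have ho := order_of_mem_Orb hx hy
  have hx0 := pos_of_coprime hx
  obtain ⟨i, j, h⟩ := (mem_Orb hx0).mp hy
  rw [mem_Orb (by rw [ho]; exact hx0)]
  set n := Nat.totient (addOrderOf x) with hn
  have hn0 : 0 < n := Nat.totient_pos.mpr hx0
  refine ⟨i * (n - 1), j * (n - 1), ?_⟩
  rw [← h, ← mul_nsmul, pow_mul, pow_mul, ← mul_pow]
  have h1 : (2 ^ i * 3 ^ j) * (2 ^ i * 3 ^ j) ^ (n - 1) = (2 ^ i * 3 ^ j) ^ n := by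
    rw [← pow_succ']
    congr 1
    omega
  rw [h1]
  have h2 : (2 ^ i * 3 ^ j) ^ n ≡ 1 [MOD addOrderOf x] := Nat.ModEq.pow_totient (coprime_two_three hx i j)
  have h3 := (nsmul_eq_nsmul_iff_modEq (x := x)).mpr h2
  rw [h3, one_nsmul]

lemma self_mem_Orb {x : T} (hx : 0 < addOrderOf x) : x ∈ Orb x :=
  (mem_Orb hx).mpr ⟨0, 0, by simp⟩

lemma mem_Orb_trans {x y z : T} (hx : (addOrderOf x).Coprime 6) (hy : y ∈ Orb x) (hz : z ∈ Orb y) :
    z ∈ Orb x := by
  have ho := order_of_mem_Orb hx hy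
  have hx0 := pos_of_coprime hx
  obtain ⟨i, j, h⟩ := (mem_Orb hx0).mp hy
  obtain ⟨i', j', h'⟩ := (mem_Orb (by rw [ho]; exact hx0)).mp hz
  rw [mem_Orb hx0]
  refine ⟨i + i', j + j', ?_⟩
  rw [← h', ← h, ← mul_nsmul]
  congr 1
  rw [pow_add, pow_add]; ring

lemma Orb_eq {x y : T} (hx : (addOrderOf x).Coprime 6) (hy : y ∈ Orb x) : Orb y = Orb x := by
  have ho := order_of_mem_Orb hx hy
  ext z
  constructor
  · exact fun hz => mem_Orb_trans hx hy hz
  · exact fun hz => mem_Orb_trans (by rw [ho]; exact hx) (mem_Orb_symm hx hy) hz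

/-! ### The uniform measure on a finite set -/

/-- the uniform probability measure on a finite set -/
noncomputable def U (S : Finset T) : Measure T := (S.card : ℝ≥0∞)⁻¹ • ∑ y ∈ S, Measure.dirac y

lemma U_apply (S : Finset T) {s : Set T} (hs : MeasurableSet s) :
    U S s = (S.card : ℝ≥0∞)⁻¹ * ∑ y ∈ S, s.indicator 1 y := by
  simp only [U, Measure.smul_apply, Measure.coe_finsetSum, Finset.sum_apply, smul_eq_mul]
  congr 1
  exact sum_congr rfl (fun y _ => Measure.dirac_apply' y hs)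

lemma U_singleton {S : Finset T} (x : T) : U S {x} ≠ 0 ↔ x ∈ S := by
  rw [U_apply S (measurableSet_singleton x)]
  have hc : ((S.card : ℝ≥0∞)⁻¹) ≠ 0 := by simp
  constructor
  · intro h
    by_contra hx
    apply h
    rw [sum_eq_zero, mul_zero]
    intro y hy
    rw [Set.indicator_of_notMem]
    rintro rfl
    exact hx hy
  · intro hx h
    rw [mul_eq_zero] at h
    rcases h with h | h
    · exact hc h
    · rw [sum_eq_zero_iff] at h
      have := h x hx
      simp at this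

lemma atoms_U (S : Finset T) : {x : T | U S {x} ≠ 0} = (S : Set T) := by
  ext x
  exact U_singleton x

lemma U_prob {S : Finset T} (hS : S.Nonempty) : IsProbabilityMeasure (U S) := by
  constructor
  rw [U_apply S MeasurableSet.univ]
  simp only [Set.indicator_univ, Pi.one_apply, sum_const, nsmul_eq_mul, mul_one]
  rw [ENNReal.inv_mul_cancel]
  · simpa using hS.ne_empty
  · simp

lemma U_compl (S : Finset T) : U S ((S : Set T)ᶜ) = 0 := by
  rw [U_apply S (S.measurableSet.compl)]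
  rw [sum_eq_zero, mul_zero]
  intro y hy
  rw [Set.indicator_of_notMem]
  simpa using hy

lemma meas_nsmul (m : ℕ) : Measurable (fun x : T => m • x) := (continuous_nsmul m).measurable

lemma U_map {S : Finset T} (m : ℕ) (h1 : ∀ x ∈ S, m • x ∈ S) (h2 : ∀ y ∈ S, ∃ x ∈ S, m • x = y) :
    Measure.map (fun x : T => m • x) (U S) = U S := by
  classical
  have him : S.image (fun x => m • x) = S := by
    ext y
    simp only [mem_image]
    constructor
    · rintro ⟨x, hx, rfl⟩; exact h1 x hx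
    · exact fun hy => h2 y hy
  have hinj : Set.InjOn (fun x => m • x) (S : Set T) := by
    rw [← card_image_iff, him]
  ext s hs
  rw [Measure.map_apply (meas_nsmul m) hs, U_apply S hs, U_apply S (meas_nsmul m hs)]
  congr 1
  conv_rhs => rw [← him]
  rw [sum_image hinj]
  rfl

lemma two_Orb {x : T} (hx : (addOrderOf x).Coprime 6) {m : ℕ} (hm : m = 2 ∨ m = 3) :
    (∀ y ∈ Orb x, m • y ∈ Orb x) ∧ (∀ z ∈ Orb x, ∃ y ∈ Orb x, m • y = z) := by
  have hx0 := pos_of_coprime hx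
  have key : ∀ y ∈ Orb x, m • y ∈ Orb x := by
    intro y hy
    have hy' : 0 < addOrderOf y := by rw [order_of_mem_Orb hx hy]; exact hx0
    refine mem_Orb_trans hx hy ((mem_Orb hy').mpr ?_)
    rcases hm with rfl | rfl
    · exact ⟨1, 0, by norm_num⟩
    · exact ⟨0, 1, by norm_num⟩
  refine ⟨key, ?_⟩
  intro z hz
  have h1 := key z hz
  have hz6 : (addOrderOf z).Coprime 6 := by rw [order_of_mem_Orb hx hz]; exact hx
  have h2 : z ∈ Orb (m • z) := by rw [Orb_eq hx h1]; exact hz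
  have ho : 0 < addOrderOf (m • z) := by rw [order_of_mem_Orb hx h1]; exact hx0
  obtain ⟨i, j, hij⟩ := (mem_Orb ho).mp h2
  refine ⟨(2 ^ i * 3 ^ j) • z, ?_, ?_⟩
  · exact mem_Orb_trans hx hz ((mem_Orb (pos_of_coprime hz6)).mpr ⟨i, j, rfl⟩)
  · rw [← mul_nsmul, mul_comm, mul_nsmul, hij]

lemma Orb_nonempty {x : T} (hx : (addOrderOf x).Coprime 6) : (Orb x).Nonempty :=
  ⟨x, self_mem_Orb (pos_of_coprime hx)⟩

/-- the orbit measures are measures of the question -/
lemma erg_U {x : T} (hx : (addOrderOf x).Coprime 6) : Erg (U (Orb x)) := by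
  have hx0 := pos_of_coprime hx
  refine ⟨U_prob (Orb_nonempty hx), ?_, ?_, ?_, ⟨Orb x, U_compl _⟩⟩
  · exact U_map 2 (two_Orb hx (Or.inl rfl)).1 (two_Orb hx (Or.inl rfl)).2
  · exact U_map 3 (two_Orb hx (Or.inr rfl)).1 (two_Orb hx (Or.inr rfl)).2
  · intro s hs h2 h3
    have h2' : ∀ y, (2 : ℕ) • y ∈ s ↔ y ∈ s := fun y => Set.ext_iff.mp h2 y
    have h3' : ∀ y, (3 : ℕ) • y ∈ s ↔ y ∈ s := fun y => Set.ext_iff.mp h3 y
    have h23 : ∀ i j : ℕ, (2 ^ i * 3 ^ j) • x ∈ s ↔ x ∈ s := by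
      intro i j
      induction i with
      | zero =>
        induction j with
        | zero => simp
        | succ j ih =>
          rw [← ih, ← h3' ((2 ^ 0 * 3 ^ j) • x), ← mul_nsmul]
          rw [show 2 ^ 0 * 3 ^ j * 3 = 2 ^ 0 * 3 ^ (j + 1) by ring]
      | succ i ih =>
        rw [← ih, ← h2' ((2 ^ i * 3 ^ j) • x), ← mul_nsmul]
        rw [show 2 ^ i * 3 ^ j * 2 = 2 ^ (i + 1) * 3 ^ j by ring]
    by_cases hxs : x ∈ s
    · right
      rw [U_apply _ hs.compl, sum_eq_zero, mul_zero]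
      intro y hy
      obtain ⟨i, j, rfl⟩ := (mem_Orb hx0).mp hy
      rw [Set.indicator_of_notMem]
      simpa using (h23 i j).mpr hxs
    · left
      rw [U_apply _ hs, sum_eq_zero, mul_zero]
      intro y hy
      obtain ⟨i, j, rfl⟩ := (mem_Orb hx0).mp hy
      rw [Set.indicator_of_notMem]
      exact fun h => hxs ((h23 i j).mp h)

/-! ### Classification -/

lemma step {μ : Measure T} (m : ℕ) (A : Finset T) (hA : ∀ x, x ∈ A ↔ μ {x} ≠ 0)
    (hnull : μ ((A : Set T)ᶜ) = 0) (hm : Measure.map (fun x : T => m • x) μ = μ) {x : T} (hx : x ∈ A) :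
    m • x ∈ A ∧ μ {m • x} = μ {x} ∧ ∃ n > 0, (m ^ n) • x = x := by
  classical
  have hinv : ∀ y : T, μ ((fun x : T => m • x) ⁻¹' {y}) = μ {y} := by
    intro y
    conv_rhs => rw [← hm]
    rw [Measure.map_apply (meas_nsmul m) (measurableSet_singleton y)]
  have hle : ∀ y : T, μ {y} ≤ μ {m • y} := by
    intro y
    rw [← hinv (m • y)]
    exact measure_mono (by rintro z rfl; rfl)
  have hmem : ∀ y ∈ A, m • y ∈ A := by
    intro y hy
    rw [hA] at hy ⊢
    exact fun h => hy (le_antisymm (h ▸ hle y) zero_le)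
  have hsurj : A ⊆ A.image (fun x => m • x) := by
    intro y hy
    by_contra hcon
    rw [hA, ← hinv y] at hy
    apply hy
    refine measure_mono_null ?_ hnull
    intro z hz hzA
    exact hcon (mem_image.mpr ⟨z, hzA, hz⟩)
  have hinj : Set.InjOn (fun x => m • x) (A : Set T) := by
    rw [← card_image_iff]
    exact le_antisymm card_image_le (card_le_card hsurj)
  -- periodicity
  let g : A → A := fun y => ⟨m • (y : T), hmem y y.2⟩
  have hg : Function.Injective g := by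
    intro y z h
    have := congrArg Subtype.val h
    exact Subtype.ext (hinj y.2 z.2 this)
  have hgit : ∀ (n : ℕ) (y : A), ((g^[n] y : A) : T) = (m ^ n) • (y : T) := by
    intro n
    induction n with
    | zero => intro y; simp
    | succ n ih =>
      intro y
      rw [Function.iterate_succ_apply, ih]
      show (m ^ n) • (m • (y : T)) = _
      rw [← mul_nsmul, pow_succ']
  have hit : ∀ (n : ℕ) (y : T), μ {y} ≤ μ {(m ^ n) • y} := by
    intro n
    induction n with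
    | zero => intro y; simp
    | succ n ih =>
      intro y
      calc μ {y} ≤ μ {m • y} := hle y
        _ ≤ μ {(m ^ n) • (m • y)} := ih _
        _ = μ {(m ^ (n + 1)) • y} := by rw [← mul_nsmul, pow_succ']
  obtain ⟨n, hn0, hn⟩ : ∃ n > 0, g^[n] ⟨x, hx⟩ = ⟨x, hx⟩ := by
    have h := hg.mem_periodicPts ⟨x, hx⟩
    exact h
  have hn' : (m ^ n) • x = x := by
    have := congrArg Subtype.val hn
    rwa [hgit] at this
  refine ⟨hmem x hx, le_antisymm ?_ (hle x), n, hn0, hn'⟩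
  obtain ⟨k, rfl⟩ : ∃ k, n = k + 1 := ⟨n - 1, by omega⟩
  calc μ {m • x} ≤ μ {(m ^ k) • (m • x)} := hit k _
    _ = μ {x} := by rw [← mul_nsmul, ← pow_succ', hn']

lemma classify {μ : Measure T} (h : Erg μ) : ∃ x : T, (addOrderOf x).Coprime 6 ∧ μ = U (Orb x) := by
  classical
  have := h.prob
  obtain ⟨t, ht⟩ := h.fin
  set A : Finset T := t.filter (fun x => μ {x} ≠ 0) with hAdef
  have hA : ∀ x, x ∈ A ↔ μ {x} ≠ 0 := by
    intro x
    rw [hAdef, mem_filter]
    refine ⟨fun h => h.2, fun h => ⟨?_, h⟩⟩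
    by_contra hx
    apply h
    refine measure_mono_null ?_ ht
    rintro y rfl
    exact hx
  have hnull : μ ((A : Set T)ᶜ) = 0 := by
    have h1 : ((A : Set T)ᶜ) ⊆ ((t : Set T)ᶜ) ∪ ⋃ x ∈ t.filter (fun x => μ {x} = 0), {x} := by
      intro y hy
      by_cases hyt : y ∈ t
      · right
        simp only [Set.mem_iUnion, Set.mem_singleton_iff, mem_filter]
        refine ⟨y, ⟨hyt, ?_⟩, rfl⟩
        by_contra hcon
        exact hy ((hA y).mpr hcon)
      · left; exact hyt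
    refine measure_mono_null h1 (measure_union_null ht ?_)
    have h2 := (measure_biUnion_null_iff (μ := μ) (s := fun x : T => ({x} : Set T))
      (Finset.countable_toSet (t.filter (fun x => μ {x} = 0)))).mpr
      (fun x hx => (mem_filter.mp hx).2)
    simpa using h2
  have hμ : μ = ∑ a ∈ A, μ {a} • Measure.dirac a := by
    rw [← Measure.ae_mem_finset_iff]
    exact hnull
  have hAne : A.Nonempty := by
    rw [nonempty_iff_ne_empty]
    intro h0
    rw [h0] at hnull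
    simp at hnull
  obtain ⟨x, hx⟩ := hAne
  have hord : ∀ y ∈ A, (addOrderOf y).Coprime 6 := by
    intro y hy
    obtain ⟨_, _, n, hn, hn'⟩ := step 2 A hA hnull h.two hy
    obtain ⟨_, _, k, hk, hk'⟩ := step 3 A hA hnull h.three hy
    have key : ∀ m n : ℕ, 2 ≤ m → 0 < n → (m ^ n) • y = y → (addOrderOf y).Coprime m := by
      intro m n hm hn h
      have h1 : (m ^ n) • y = 1 • y := by rw [h, one_nsmul]
      rw [nsmul_eq_nsmul_iff_modEq] at h1
      have hm1 : 1 ≤ m ^ n := Nat.one_le_pow _ _ (by omega)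
      have h2 : addOrderOf y ∣ m ^ n - 1 := (Nat.modEq_iff_dvd' hm1).mp h1.symm
      have h3 : Nat.Coprime (m ^ n - 1) ((m ^ n - 1) + 1) := by simp
      rw [Nat.sub_add_cancel hm1] at h3
      have h4 : Nat.Coprime (addOrderOf y) (m ^ n) := Nat.Coprime.coprime_dvd_left h2 h3
      exact (Nat.coprime_pow_right_iff hn _ _).mp h4
    have h2 := key 2 n le_rfl hn hn'
    have h3 := key 3 k (by norm_num) hk hk'
    have := Nat.Coprime.mul_right h2 h3
    simpa using this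
  have hx6 := hord x hx
  have hx0 := pos_of_coprime hx6
  -- the grand orbit
  have hmul : ∀ (i j : ℕ) (y : T), y ∈ A → (2 ^ i * 3 ^ j) • y ∈ A ∧ μ {(2 ^ i * 3 ^ j) • y} = μ {y} := by
    intro i j y hy
    induction i with
    | zero =>
      induction j with
      | zero => simpa using hy
      | succ j ih =>
        obtain ⟨h1, h2, _⟩ := step 3 A hA hnull h.three ih.1
        rw [← mul_nsmul, show 2 ^ 0 * 3 ^ j * 3 = 2 ^ 0 * 3 ^ (j + 1) by ring] at h1 h2
        exact ⟨h1, h2.trans ih.2⟩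
    | succ i ih =>
      obtain ⟨h1, h2, _⟩ := step 2 A hA hnull h.two ih.1
      rw [← mul_nsmul, show 2 ^ i * 3 ^ j * 2 = 2 ^ (i + 1) * 3 ^ j by ring] at h1 h2
      exact ⟨h1, h2.trans ih.2⟩
  set S : Set T := {y | ∃ i j i' j' : ℕ, (2 ^ i * 3 ^ j) • y = (2 ^ i' * 3 ^ j') • x} with hS
  have hSm : MeasurableSet S := by
    have : S = ⋃ i : ℕ, ⋃ j : ℕ, ⋃ i' : ℕ, ⋃ j' : ℕ,
        (fun y : T => (2 ^ i * 3 ^ j) • y) ⁻¹' {(2 ^ i' * 3 ^ j') • x} := by
      ext y
      simp [hS]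
    rw [this]
    exact MeasurableSet.iUnion fun i => MeasurableSet.iUnion fun j => MeasurableSet.iUnion fun i' =>
      MeasurableSet.iUnion fun j' => meas_nsmul _ (measurableSet_singleton _)
  have hS2 : (fun x : T => (2 : ℕ) • x) ⁻¹' S = S := by
    ext y
    constructor
    · rintro ⟨i, j, i', j', h⟩
      refine ⟨i + 1, j, i', j', ?_⟩
      rw [← h]
      show (2 ^ (i + 1) * 3 ^ j) • y = (2 ^ i * 3 ^ j) • (2 • y)
      rw [← mul_nsmul]
      congr 1; ring
    · rintro ⟨i, j, i', j', h⟩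
      refine ⟨i, j, i' + 1, j', ?_⟩
      show (2 ^ i * 3 ^ j) • (2 • y) = (2 ^ (i' + 1) * 3 ^ j') • x
      rw [← mul_nsmul, mul_comm 2, mul_nsmul, h, ← mul_nsmul]
      congr 1; ring
  have hS3 : (fun x : T => (3 : ℕ) • x) ⁻¹' S = S := by
    ext y
    constructor
    · rintro ⟨i, j, i', j', h⟩
      refine ⟨i, j + 1, i', j', ?_⟩
      rw [← h]
      show (2 ^ i * 3 ^ (j + 1)) • y = (2 ^ i * 3 ^ j) • (3 • y)
      rw [← mul_nsmul]
      congr 1; ring
    · rintro ⟨i, j, i', j', h⟩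
      refine ⟨i, j, i', j' + 1, ?_⟩
      show (2 ^ i * 3 ^ j) • (3 • y) = (2 ^ i' * 3 ^ (j' + 1)) • x
      rw [← mul_nsmul, mul_comm 3, mul_nsmul, h, ← mul_nsmul]
      congr 1; ring
  have hSc : μ Sᶜ = 0 := by
    rcases h.erg S hSm hS2 hS3 with h0 | h0
    · exfalso
      apply (hA x).mp hx
      refine measure_mono_null ?_ h0
      rintro y rfl
      exact ⟨0, 0, 0, 0, rfl⟩
    · exact h0
  have hAO : A = Orb x := by
    ext y
    constructor
    · intro hy
      have hyS : y ∈ S := by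
        by_contra hcon
        apply (hA y).mp hy
        refine measure_mono_null ?_ hSc
        rintro z rfl
        exact hcon
      obtain ⟨i, j, i', j', he⟩ := hyS
      have hy6 := hord y hy
      have h1 : (2 ^ i' * 3 ^ j') • x ∈ Orb x := (mem_Orb hx0).mpr ⟨i', j', rfl⟩
      have h2 : (2 ^ i * 3 ^ j) • y ∈ Orb y := (mem_Orb (pos_of_coprime hy6)).mpr ⟨i, j, rfl⟩
      have h3 := mem_Orb_symm hy6 h2
      rw [he, Orb_eq hx6 h1] at h3
      exact h3
    · intro hy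
      obtain ⟨i, j, rfl⟩ := (mem_Orb hx0).mp hy
      exact (hmul i j x hx).1
  have hconst : ∀ y ∈ A, μ {y} = μ {x} := by
    intro y hy
    rw [hAO] at hy
    obtain ⟨i, j, rfl⟩ := (mem_Orb hx0).mp hy
    exact (hmul i j x hx).2
  have hμ2 : μ = μ {x} • ∑ a ∈ Orb x, Measure.dirac a := by
    conv_lhs => rw [hμ]
    rw [← hAO, smul_sum]
    exact sum_congr rfl (fun a ha => by rw [hconst a ha])
  have hc : μ {x} = ((Orb x).card : ℝ≥0∞)⁻¹ := by
    have h1 : μ Set.univ = 1 := measure_univ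
    rw [hμ2] at h1
    simp only [Measure.smul_apply, Measure.coe_finsetSum, Finset.sum_apply, smul_eq_mul,
      measure_univ, sum_const, nsmul_eq_mul, mul_one] at h1
    exact ENNReal.eq_inv_of_mul_eq_one_left h1
  refine ⟨x, hx6, ?_⟩
  rw [U, ← hc]
  exact hμ2

/-! ### `q / φ(q)` -/

lemma prod_sq_le (w : ℕ) : ∀ S : Finset ℕ, S.card = w → (∀ p ∈ S, Odd p ∧ 3 ≤ p) →
    (∏ p ∈ S, p) ^ 2 ≤ (2 * w + 1) * (∏ p ∈ S, (p - 1)) ^ 2 := by
  classical
  induction w with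
  | zero =>
    intro S hS _
    rw [card_eq_zero] at hS
    subst hS
    simp
  | succ w ih =>
    intro S hS hodd
    have hne : S.Nonempty := card_pos.mp (by omega)
    set m := S.max' hne with hm
    have hmS : m ∈ S := S.max'_mem hne
    have hcard : (S.erase m).card = w := by rw [card_erase_of_mem hmS]; omega
    have hih := ih (S.erase m) hcard (fun p hp => hodd p (mem_of_mem_erase hp))
    -- `2 (w + 1) + 1 ≤ m`
    have hbig : 2 * (w + 1) + 1 ≤ m := by
      have hle : S.card ≤ (range ((m - 1) / 2)).card := by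
        refine card_le_card_of_injOn (fun p => (p - 3) / 2) ?_ ?_
        · intro p hp
          have h1 := hodd p hp
          have h2 : p ≤ m := S.le_max' p hp
          have h3 : 3 ≤ m := (hodd m hmS).2
          simp only [coe_range, Set.mem_Iio]
          omega
        · intro p hp p' hp' h
          obtain ⟨⟨a, ha⟩, h1⟩ := hodd p hp
          obtain ⟨⟨b, hb⟩, h2⟩ := hodd p' hp'
          simp only at h
          omega
      rw [card_range, hS] at hle
      have := Nat.div_mul_le_self (m - 1) 2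
      have h3 : 3 ≤ m := (hodd m hmS).2
      omega
    rw [← mul_prod_erase S _ hmS, ← mul_prod_erase S _ hmS, mul_pow, mul_pow]
    have hstep : m ^ 2 * (2 * w + 1) ≤ (2 * (w + 1) + 1) * (m - 1) ^ 2 := by
      obtain ⟨d, hd⟩ := Nat.exists_eq_add_of_le hbig
      have h1 : m - 1 = 2 * (w + 1) + d := by omega
      rw [h1, hd]
      nlinarith [Nat.zero_le d, Nat.zero_le w, Nat.zero_le (d * w)]
    calc m ^ 2 * (∏ p ∈ S.erase m, p) ^ 2
        ≤ m ^ 2 * ((2 * w + 1) * (∏ p ∈ S.erase m, (p - 1)) ^ 2) := Nat.mul_le_mul_left _ hih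
      _ = (m ^ 2 * (2 * w + 1)) * (∏ p ∈ S.erase m, (p - 1)) ^ 2 := by ring
      _ ≤ ((2 * (w + 1) + 1) * (m - 1) ^ 2) * (∏ p ∈ S.erase m, (p - 1)) ^ 2 :=
          Nat.mul_le_mul_right _ hstep
      _ = (2 * (w + 1) + 1) * ((m - 1) ^ 2 * (∏ p ∈ S.erase m, (p - 1)) ^ 2) := by ring

lemma q_sq_le {q : ℕ} (hq : q.Coprime 6) : q ^ 2 ≤ (2 * cnt q + 1) * q.totient ^ 2 := by
  have hq0 := pos_of_coprime hq
  have hprime : ∀ p ∈ q.primeFactors, Odd p ∧ 3 ≤ p := by
    intro p hp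
    have hpp := Nat.prime_of_mem_primeFactors hp
    have hpd := Nat.dvd_of_mem_primeFactors hp
    have hne2 : p ≠ 2 := by
      rintro rfl
      have := Nat.dvd_gcd hpd (by norm_num : 2 ∣ 6)
      rw [hq] at this
      omega
    refine ⟨hpp.odd_of_ne_two hne2, ?_⟩
    have := hpp.two_le
    omega
  have h1 := prod_sq_le q.primeFactors.card q.primeFactors rfl hprime
  have hw : q.primeFactors.card ≤ cnt q := by
    have h2 : 2 ^ q.primeFactors.card ≤ ∏ p ∈ q.primeFactors, p :=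
      Finset.pow_card_le_prod _ _ _ (fun p hp => (Nat.prime_of_mem_primeFactors hp).two_le)
    have h3 : ∏ p ∈ q.primeFactors, p ≤ q := Nat.le_of_dvd hq0 (Nat.prod_primeFactors_dvd q)
    have h4 := lt_two_pow_cnt hq
    exact ((Nat.pow_lt_pow_iff_right (by norm_num : 1 < 2)).mp (lt_of_le_of_lt (h2.trans h3) h4)).le
  have h5 := Nat.totient_mul_prod_primeFactors q
  set P := ∏ p ∈ q.primeFactors, p with hP
  set P' := ∏ p ∈ q.primeFactors, (p - 1) with hP'
  have hP'0 : 0 < P' := by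
    rw [hP']
    exact prod_pos (fun p hp => by have := (hprime p hp).2; omega)
  have h6 : q ^ 2 * P' ^ 2 ≤ ((2 * cnt q + 1) * q.totient ^ 2) * P' ^ 2 := by
    calc q ^ 2 * P' ^ 2 = (q * P') ^ 2 := by ring
      _ = (q.totient * P) ^ 2 := by rw [h5]
      _ = q.totient ^ 2 * P ^ 2 := by ring
      _ ≤ q.totient ^ 2 * ((2 * q.primeFactors.card + 1) * P' ^ 2) := Nat.mul_le_mul_left _ h1
      _ ≤ q.totient ^ 2 * ((2 * cnt q + 1) * P' ^ 2) := by
          apply Nat.mul_le_mul_left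
          apply Nat.mul_le_mul_right
          omega
      _ = ((2 * cnt q + 1) * q.totient ^ 2) * P' ^ 2 := by ring
  exact Nat.le_of_mul_le_mul_right h6 (by positivity)

lemma q_le_real {q : ℕ} (hq : q.Coprime 6) :
    (q : ℝ) ≤ Real.sqrt (2 * cnt q + 1) * q.totient := by
  have h := q_sq_le hq
  have h' : (q : ℝ) ^ 2 ≤ (2 * cnt q + 1) * (q.totient : ℝ) ^ 2 := by exact_mod_cast h
  have h2 : (q : ℝ) = Real.sqrt ((q : ℝ) ^ 2) := (Real.sqrt_sq (by positivity)).symm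
  rw [h2]
  calc Real.sqrt ((q : ℝ) ^ 2) ≤ Real.sqrt ((2 * cnt q + 1) * (q.totient : ℝ) ^ 2) := Real.sqrt_le_sqrt h'
    _ = Real.sqrt (2 * cnt q + 1) * q.totient := by
        rw [Real.sqrt_mul (by positivity), Real.sqrt_sq (by positivity)]

/-! ### Second moments -/

/-- the generator of the `q`-torsion -/
noncomputable def gen (q : ℕ) : T := (((1 : ℝ) / q : ℝ) : T)

lemma order_gen {q : ℕ} (hq : 0 < q) : addOrderOf (gen q) = q :=
  AddCircle.addOrderOf_period_div hq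

/-- points of order `q` -/
noncomputable def X (q : ℕ) : Finset T := by
  classical exact ((range q).image (fun a => a • gen q)).filter (fun x => addOrderOf x = q)

lemma mem_X {q : ℕ} (hq : 0 < q) (x : T) : x ∈ X q ↔ addOrderOf x = q := by
  classical
  simp only [X, mem_filter, mem_image, mem_range]
  refine ⟨fun h => h.2, fun h => ⟨?_, h⟩⟩
  obtain ⟨m, hm, _, he⟩ := (AddCircle.addOrderOf_eq_pos_iff hq).mp h
  refine ⟨m, hm, ?_⟩
  rw [← he, gen]
  rw [← AddCircle.coe_nsmul]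
  congr 1
  simp only [nsmul_eq_mul]
  ring

lemma card_X {q : ℕ} (hq : 0 < q) : (X q).card = q.totient := by
  rw [← AddCircle.card_addOrderOf_eq_totient (p := (1 : ℝ))]
  exact (Nat.subtype_card (X q) (fun x => mem_X hq x)).symm

/-- the number of `s < q` with `q ∣ K (r - s)` is at most `K` -/
lemma count_le {q K : ℕ} (hq : 0 < q) (hK : 0 < K) (r : ℕ) :
    ((range q).filter (fun s : ℕ => (q : ℤ) ∣ (K : ℤ) * ((r : ℤ) - s))).card ≤ K := by
  have hqz : (0 : ℤ) < q := by exact_mod_cast hq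
  have hKz : (0 : ℤ) < K := by exact_mod_cast hK
  have hinj : Set.InjOn (fun s : ℕ => (K : ℤ) * ((r : ℤ) - s) / q)
      ((range q).filter (fun s : ℕ => (q : ℤ) ∣ (K : ℤ) * ((r : ℤ) - s)) : Finset ℕ) := by
    intro s hs s' hs' h
    simp only [coe_filter, mem_range] at hs hs'
    simp only at h
    have h1 := Int.ediv_mul_cancel hs.2
    have h2 := Int.ediv_mul_cancel hs'.2
    rw [h] at h1
    have h3 : (K : ℤ) * ((r : ℤ) - s) = K * ((r : ℤ) - s') := h1.symm.trans h2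
    have h4 := mul_left_cancel₀ hKz.ne' h3
    omega
  have hmaps : ∀ s ∈ ((range q).filter (fun s : ℕ => (q : ℤ) ∣ (K : ℤ) * ((r : ℤ) - s)) : Finset ℕ),
      (K : ℤ) * ((r : ℤ) - s) / q ∈ Finset.Ioc ((K : ℤ) * r / q - K) ((K : ℤ) * r / q) := by
    intro s hs
    rw [mem_filter, mem_range] at hs
    rw [mem_Ioc]
    have h1 := Int.ediv_mul_cancel hs.2
    set t := (K : ℤ) * ((r : ℤ) - s) / q with ht
    have hs0 : (s : ℤ) < q := by exact_mod_cast hs.1
    have hs1 : (0 : ℤ) ≤ s := by positivity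
    constructor
    · have : (K : ℤ) * r / q < t + K := by
        rw [Int.ediv_lt_iff_lt_mul hqz]
        nlinarith
      linarith
    · rw [Int.le_ediv_iff_mul_le hqz]
      nlinarith
  have := Finset.card_le_card_of_injOn _ hmaps hinj
  simpa using this

/-- the second moment over the `q`-torsion -/
lemma moment {q : ℕ} (hq : 0 < q) {k : ℤ} (hk : k ≠ 0) :
    ∑ a ∈ range q, ‖∑ r ∈ R q, fourier k (r • (a • gen q) : T)‖ ^ 2 ≤ (q : ℝ) * cnt q * |(k : ℝ)| := by
  classical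
  set w : Circle := AddCircle.toCircle (gen q) with hw
  have hval : ∀ r a : ℕ, fourier k (r • (a • gen q) : T) = ((w : ℂ) ^ (k * (r : ℤ))) ^ a := by
    intro r a
    rw [fourier_apply, ← natCast_zsmul, ← natCast_zsmul, ← mul_zsmul, ← mul_zsmul,
      AddCircle.toCircle_zsmul, ← hw, Circle.coe_zpow, ← zpow_natCast, ← zpow_mul]
  have hone : ∀ z : ℤ, (w : ℂ) ^ z = 1 ↔ (q : ℤ) ∣ z := by
    intro z
    rw [← Circle.coe_zpow, Circle.coe_eq_one, hw, ← AddCircle.toCircle_zsmul]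
    rw [← AddCircle.toCircle_zero (T := (1 : ℝ)), (AddCircle.injective_toCircle one_ne_zero).eq_iff]
    rw [← addOrderOf_dvd_iff_zsmul_eq_zero, order_gen hq]
  have hw0 : (w : ℂ) ≠ 0 := w.coe_ne_zero
  have hconj : ∀ z : ℤ, (starRingEnd ℂ) ((w : ℂ) ^ z) = (w : ℂ) ^ (-z) := by
    intro z
    rw [← Circle.coe_zpow, ← Circle.coe_inv_eq_conj, zpow_neg, Circle.coe_inv, Circle.coe_zpow]
  have hgeom : ∀ z : ℤ, ∑ a ∈ range q, ((w : ℂ) ^ z) ^ a = if (q : ℤ) ∣ z then (q : ℂ) else 0 := by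
    intro z
    split_ifs with h
    · rw [(hone z).mpr h]; simp
    · have h1 : (w : ℂ) ^ z ≠ 1 := fun h' => h ((hone z).mp h')
      rw [geom_sum_eq h1]
      have h2 : ((w : ℂ) ^ z) ^ q = 1 := by
        rw [← zpow_natCast, ← zpow_mul]
        exact (hone _).mpr (Dvd.intro_left z rfl)
      rw [h2]; simp
  have hmain : ((∑ a ∈ range q, ‖∑ r ∈ R q, fourier k (r • (a • gen q) : T)‖ ^ 2 : ℝ) : ℂ) =
      ∑ r ∈ R q, ∑ s ∈ R q, if (q : ℤ) ∣ k * ((r : ℤ) - s) then (q : ℂ) else 0 := by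
    push_cast
    have h1 : ∀ a ∈ range q, ((‖∑ r ∈ R q, fourier k (r • (a • gen q) : T)‖ : ℝ) : ℂ) ^ 2 =
        ∑ r ∈ R q, ∑ s ∈ R q, ((w : ℂ) ^ (k * ((r : ℤ) - s))) ^ a := by
      intro a _
      rw [← Complex.mul_conj', map_sum, sum_mul_sum]
      refine sum_congr rfl (fun r _ => sum_congr rfl (fun s _ => ?_))
      rw [hval, hval, map_pow, hconj, ← mul_pow, ← zpow_add₀ hw0]
      congr 2
      ring
    rw [sum_congr rfl h1, sum_comm]
    refine sum_congr rfl (fun r _ => ?_)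
    rw [sum_comm]
    exact sum_congr rfl (fun s _ => hgeom _)
  have hreal : (∑ a ∈ range q, ‖∑ r ∈ R q, fourier k (r • (a • gen q) : T)‖ ^ 2 : ℝ) =
      ∑ r ∈ R q, ∑ s ∈ R q, if (q : ℤ) ∣ k * ((r : ℤ) - s) then (q : ℝ) else 0 := by
    have : ((∑ r ∈ R q, ∑ s ∈ R q, (if (q : ℤ) ∣ k * ((r : ℤ) - s) then (q : ℝ) else 0) : ℝ) : ℂ) =
        ∑ r ∈ R q, ∑ s ∈ R q, if (q : ℤ) ∣ k * ((r : ℤ) - s) then (q : ℂ) else 0 := by
      push_cast
      refine sum_congr rfl (fun r _ => sum_congr rfl (fun s _ => ?_))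
      split_ifs <;> simp
    rw [← this] at hmain
    exact_mod_cast hmain
  rw [hreal]
  have hinner : ∀ r ∈ R q, ∑ s ∈ R q, (if (q : ℤ) ∣ k * ((r : ℤ) - s) then (q : ℝ) else 0) ≤ q * |(k : ℝ)| := by
    intro r hr
    rw [← sum_filter, sum_const, nsmul_eq_mul, mul_comm]
    apply mul_le_mul_of_nonneg_left _ (by positivity)
    have hsub : (R q).filter (fun s : ℕ => (q : ℤ) ∣ k * ((r : ℤ) - s)) ⊆
        (range q).filter (fun s : ℕ => (q : ℤ) ∣ ((k.natAbs : ℕ) : ℤ) * ((r : ℤ) - s)) := by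
      intro s hs
      rw [mem_filter] at hs ⊢
      refine ⟨(mem_filter.mp hs.1).1, ?_⟩
      rcases Int.natAbs_eq k with h | h
      · rw [← h]; exact hs.2
      · have h2 := hs.2
        rw [h] at h2
        have h3 : -(k.natAbs : ℤ) * ((r : ℤ) - s) = -((k.natAbs : ℤ) * ((r : ℤ) - s)) := by ring
        rw [h3] at h2
        exact (dvd_neg).mp h2
    have h2 := (card_le_card hsub).trans (count_le hq (Int.natAbs_pos.mpr hk) r)
    calc (((R q).filter (fun s : ℕ => (q : ℤ) ∣ k * ((r : ℤ) - s))).card : ℝ) ≤ (k.natAbs : ℝ) := by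
          exact_mod_cast h2
      _ = |(k : ℝ)| := by rw [Nat.cast_natAbs]; simp
  calc ∑ r ∈ R q, ∑ s ∈ R q, (if (q : ℤ) ∣ k * ((r : ℤ) - s) then (q : ℝ) else 0)
      ≤ ∑ r ∈ R q, (q : ℝ) * |(k : ℝ)| := sum_le_sum hinner
    _ = (q : ℝ) * cnt q * |(k : ℝ)| := by
        rw [sum_const, nsmul_eq_mul, cnt]; ring

/-- integrals against the uniform measure -/
lemma integral_U {S : Finset T} (f : C(T, ℂ)) :
    ∫ x, f x ∂(U S) = (S.card : ℂ)⁻¹ * ∑ y ∈ S, f y := by
  rw [U, integral_smul_measure, integral_finsetSum_measure]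
  · simp only [integral_dirac]
    simp
  · intro y _
    exact integrable_dirac (by simp)

/-- the mean square over points of order `q` -/
lemma moment_X {q : ℕ} (hq : q.Coprime 6) {k : ℤ} (hk : k ≠ 0) :
    ∑ x ∈ X q, ‖∫ y, fourier k y ∂(U (Orb x))‖ ^ 2 ≤
      (X q).card * (|(k : ℝ)| * Real.sqrt (2 * cnt q + 1) / cnt q) := by
  classical
  have hq0 := pos_of_coprime hq
  have hN : (0 : ℝ) < cnt q := by exact_mod_cast cnt_pos hq0
  have h1 : ∀ x ∈ X q, ‖∫ y, fourier k y ∂(U (Orb x))‖ ^ 2 =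
      (cnt q : ℝ)⁻¹ ^ 2 * ‖∑ r ∈ R q, fourier k (r • x : T)‖ ^ 2 := by
    intro x hx
    have ho := (mem_X hq0 x).mp hx
    rw [integral_U, card_Orb, sum_Orb, ho, norm_mul, mul_pow, norm_inv, Complex.norm_natCast]
  rw [sum_congr rfl h1, ← mul_sum]
  have h2 : ∑ x ∈ X q, ‖∑ r ∈ R q, fourier k (r • x : T)‖ ^ 2 ≤
      ∑ a ∈ range q, ‖∑ r ∈ R q, fourier k (r • (a • gen q) : T)‖ ^ 2 := by
    have hinj : Set.InjOn (fun a : ℕ => a • gen q) (range q : Finset ℕ) := by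
      intro a ha b hb h
      rw [coe_range] at ha hb
      exact nsmul_injOn_Iio_addOrderOf (by rw [order_gen hq0]; exact ha) (by rw [order_gen hq0]; exact hb) h
    rw [← sum_image (g := fun a : ℕ => a • gen q)
      (f := fun x : T => ‖∑ r ∈ R q, fourier k (r • x : T)‖ ^ 2) hinj]
    apply sum_le_sum_of_subset_of_nonneg
    · exact filter_subset _ _
    · intros; positivity
  have h3 := h2.trans (moment hq0 hk)
  have h4 := q_le_real hq
  rw [card_X hq0]
  calc (cnt q : ℝ)⁻¹ ^ 2 * ∑ x ∈ X q, ‖∑ r ∈ R q, fourier k (r • x : T)‖ ^ 2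
      ≤ (cnt q : ℝ)⁻¹ ^ 2 * ((q : ℝ) * cnt q * |(k : ℝ)|) := mul_le_mul_of_nonneg_left h3 (by positivity)
    _ = (q : ℝ) * (|(k : ℝ)| / cnt q) := by field_simp
    _ ≤ (Real.sqrt (2 * cnt q + 1) * q.totient) * (|(k : ℝ)| / cnt q) :=
        mul_le_mul_of_nonneg_right h4 (by positivity)
    _ = q.totient * (|(k : ℝ)| * Real.sqrt (2 * cnt q + 1) / cnt q) := by ring

/-! ### Families of orbit measures -/

lemma U_Orb_inj {x y : T} (h : U (Orb x) = U (Orb y)) : Orb x = Orb y := by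
  have h1 := atoms_U (Orb x)
  rw [h, atoms_U] at h1
  exact (Finset.coe_injective h1).symm

lemma atoms_U_Orb (x : T) : atoms (U (Orb x)) = cnt (addOrderOf x) := by
  rw [atoms, atoms_U, Set.ncard_coe_finset, card_Orb]

/-- the measures of the orbits of the points of `Y` -/
noncomputable def fam (Y : Finset T) : Finset (Measure T) := by
  classical exact Y.image (fun x => U (Orb x))

lemma mem_fam {Y : Finset T} {μ : Measure T} : μ ∈ fam Y ↔ ∃ x ∈ Y, U (Orb x) = μ := by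
  classical
  simp [fam]

lemma sum_fam {Y : Finset T} {N : ℕ} (hY : ∀ x ∈ Y, (addOrderOf x).Coprime 6 ∧ cnt (addOrderOf x) = N ∧
    ∀ y ∈ Orb x, y ∈ Y) (F : Measure T → ℝ) : ∑ x ∈ Y, F (U (Orb x)) = N * ∑ μ ∈ fam Y, F μ := by
  classical
  have h1 : ∑ μ ∈ fam Y, ∑ x ∈ Y with U (Orb x) = μ, F (U (Orb x)) = ∑ x ∈ Y, F (U (Orb x)) :=
    sum_fiberwise_of_maps_to (fun x hx => mem_fam.mpr ⟨x, hx, rfl⟩) _
  rw [← h1, mul_sum]
  refine sum_congr rfl (fun μ hμ => ?_)
  obtain ⟨x₀, hx₀, rfl⟩ := mem_fam.mp hμ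
  obtain ⟨h6, hc, hcl⟩ := hY x₀ hx₀
  have hfil : (Y.filter (fun x => U (Orb x) = U (Orb x₀))) = Orb x₀ := by
    ext x
    rw [mem_filter]
    constructor
    · rintro ⟨hx, he⟩
      rw [← U_Orb_inj he]
      exact self_mem_Orb (pos_of_coprime (hY x hx).1)
    · intro hx
      exact ⟨hcl x hx, by rw [Orb_eq h6 hx]⟩
  rw [hfil]
  have h2 : ∀ x ∈ Orb x₀, F (U (Orb x)) = F (U (Orb x₀)) := fun x hx => by rw [Orb_eq h6 hx]
  rw [sum_congr rfl h2, sum_const, card_Orb, hc, nsmul_eq_mul]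

lemma fam_moment {Y : Finset T} {N : ℕ} (hN : 0 < N) (hY : ∀ x ∈ Y, (addOrderOf x).Coprime 6 ∧
    cnt (addOrderOf x) = N ∧ ∀ y ∈ Orb x, y ∈ Y) {k : ℤ} {C : ℝ}
    (hm : ∑ x ∈ Y, ‖∫ y, fourier k y ∂(U (Orb x))‖ ^ 2 ≤ Y.card * C) :
    ∑ μ ∈ fam Y, ‖∫ y, fourier k y ∂μ‖ ^ 2 ≤ (fam Y).card * C := by
  have h1 := sum_fam hY (fun μ => ‖∫ y, fourier k y ∂μ‖ ^ 2)
  have h2 := sum_fam hY (fun _ => 1)
  simp only [sum_const, nsmul_eq_mul, mul_one] at h2
  rw [h1, h2, mul_assoc] at hm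
  have hN' : (0 : ℝ) < N := by exact_mod_cast hN
  exact le_of_mul_le_mul_left hm hN'

/-! ### The two families of the statement -/

open Classical in
/-- points with orbits of size `N` -/
noncomputable def Y (N : ℕ) : Finset T :=
  ((range (2 ^ N)).filter (fun q => q.Coprime 6 ∧ cnt q = N)).biUnion X

lemma mem_Y {N : ℕ} {x : T} : x ∈ Y N ↔ (addOrderOf x).Coprime 6 ∧ cnt (addOrderOf x) = N := by
  classical
  simp only [Y, mem_biUnion, mem_filter, mem_range]
  constructor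
  · rintro ⟨q, ⟨_, hq, hc⟩, hx⟩
    rw [mem_X (pos_of_coprime hq)] at hx
    rw [hx]
    exact ⟨hq, hc⟩
  · rintro ⟨hq, hc⟩
    refine ⟨addOrderOf x, ⟨?_, hq, hc⟩, (mem_X (pos_of_coprime hq) x).mpr rfl⟩
    rw [← hc]
    exact lt_two_pow_cnt hq

lemma Y_prop {N : ℕ} : ∀ x ∈ Y N, (addOrderOf x).Coprime 6 ∧ cnt (addOrderOf x) = N ∧ ∀ y ∈ Orb x, y ∈ Y N := by
  intro x hx
  obtain ⟨h1, h2⟩ := mem_Y.mp hx
  refine ⟨h1, h2, fun y hy => mem_Y.mpr ?_⟩
  rw [order_of_mem_Orb h1 hy]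
  exact ⟨h1, h2⟩

lemma X_prop {q : ℕ} (hq : q.Coprime 6) :
    ∀ x ∈ X q, (addOrderOf x).Coprime 6 ∧ cnt (addOrderOf x) = cnt q ∧ ∀ y ∈ Orb x, y ∈ X q := by
  intro x hx
  have ho := (mem_X (pos_of_coprime hq) x).mp hx
  have h6 : (addOrderOf x).Coprime 6 := by rw [ho]; exact hq
  refine ⟨h6, by rw [ho], fun y hy => ?_⟩
  rw [mem_X (pos_of_coprime hq), order_of_mem_Orb h6 hy, ho]

lemma Y_moment (N : ℕ) {k : ℤ} (hk : k ≠ 0) :
    ∑ x ∈ Y N, ‖∫ y, fourier k y ∂(U (Orb x))‖ ^ 2 ≤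
      (Y N).card * (|(k : ℝ)| * Real.sqrt (2 * N + 1) / N) := by
  classical
  have hdis : ((((range (2 ^ N)).filter (fun q => q.Coprime 6 ∧ cnt q = N)) : Finset ℕ) : Set ℕ).PairwiseDisjoint
      X := by
    intro a ha b hb hab
    rw [Function.onFun, Finset.disjoint_left]
    intro x hx hx'
    have ha' := (mem_filter.mp (Finset.mem_coe.mp ha)).2.1
    have hb' := (mem_filter.mp (Finset.mem_coe.mp hb)).2.1
    rw [mem_X (pos_of_coprime ha')] at hx
    rw [mem_X (pos_of_coprime hb')] at hx'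
    exact hab (hx.symm.trans hx')
  rw [Y, sum_biUnion hdis, card_biUnion hdis]
  push_cast
  rw [sum_mul]
  refine sum_le_sum (fun q hq => ?_)
  obtain ⟨_, hq6, hqc⟩ := mem_filter.mp hq
  have := moment_X hq6 hk
  rw [hqc] at this
  exact this

lemma EN_eq (N : ℕ) : EN N = (fam (Y N) : Set (Measure T)) := by
  ext μ
  rw [Finset.mem_coe, mem_fam]
  constructor
  · rintro ⟨h, hN⟩
    obtain ⟨x, hx, rfl⟩ := classify h
    rw [atoms_U_Orb] at hN
    exact ⟨x, mem_Y.mpr ⟨hx, hN⟩, rfl⟩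
  · rintro ⟨x, hx, rfl⟩
    obtain ⟨h1, h2⟩ := mem_Y.mp hx
    exact ⟨erg_U h1, by rw [atoms_U_Orb, h2]⟩

lemma EQ_eq {q : ℕ} (hq : q.Coprime 6) : EQ q = (fam (X q) : Set (Measure T)) := by
  have hq0 := pos_of_coprime hq
  ext μ
  rw [Finset.mem_coe, mem_fam]
  constructor
  · rintro ⟨h, y, hy, hyq⟩
    obtain ⟨x, hx, rfl⟩ := classify h
    rw [U_singleton] at hy
    refine ⟨x, (mem_X hq0 x).mpr ?_, rfl⟩
    rw [← order_of_mem_Orb hx hy, hyq]
  · rintro ⟨x, hx, rfl⟩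
    have ho := (mem_X hq0 x).mp hx
    have h6 : (addOrderOf x).Coprime 6 := by rw [ho]; exact hq
    exact ⟨erg_U h6, x, (U_singleton x).mpr (self_mem_Orb (pos_of_coprime h6)), ho⟩

/-! ### The good set -/

/-- measures whose first Fourier coefficients are small -/
def G : Set (Measure T) := {μ | ∀ k : ℤ, k ≠ 0 → |(k : ℝ)| ≤ (atoms μ : ℝ) ^ ((1 : ℝ) / 16) →
  ‖∫ x, fourier k x ∂μ‖ ^ 2 ≤ (atoms μ : ℝ) ^ (-((1 : ℝ) / 8))}

lemma bad_count (M : Finset (Measure T)) {N : ℕ} (hN : 0 < N) (hM : ∀ μ ∈ M, atoms μ = N)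
    (hm : ∀ k : ℤ, k ≠ 0 → ∑ μ ∈ M, ‖∫ y, fourier k y ∂μ‖ ^ 2 ≤
      M.card * (|(k : ℝ)| * Real.sqrt (2 * N + 1) / N)) :
    (((M : Set (Measure T)) \ G).ncard : ℝ) ≤ 4 * (N : ℝ) ^ (-((1 : ℝ) / 4)) * M.card := by
  classical
  have hN0 : (0 : ℝ) < N := by exact_mod_cast hN
  have hN1 : (1 : ℝ) ≤ N := by exact_mod_cast hN
  set K : ℕ := ⌊(N : ℝ) ^ ((1 : ℝ) / 16)⌋₊ with hK
  have hKle : (K : ℝ) ≤ (N : ℝ) ^ ((1 : ℝ) / 16) := Nat.floor_le (by positivity)
  set S : Finset ℤ := (Finset.Icc (-(K : ℤ)) K).erase 0 with hS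
  have hScard : (S.card : ℝ) = 2 * K := by
    rw [hS, card_erase_of_mem (by simp), Int.card_Icc]
    have : ((K : ℤ) + 1 - -(K : ℤ)).toNat - 1 = 2 * K := by omega
    rw [this]; push_cast; ring
  set B : ℤ → Finset (Measure T) := fun k =>
    M.filter (fun μ => (N : ℝ) ^ (-((1 : ℝ) / 8)) < ‖∫ y, fourier k y ∂μ‖ ^ 2) with hB
  have hsub : ((M : Set (Measure T)) \ G) ⊆ ((S.biUnion B : Finset (Measure T)) : Set (Measure T)) := by
    rintro μ ⟨hμM, hμG⟩
    simp only [G, Set.mem_ofPred_eq, not_forall, not_le] at hμG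
    obtain ⟨k, hk0, hkle, hlt⟩ := hμG
    rw [hM μ hμM] at hkle hlt
    rw [Finset.mem_coe, mem_biUnion]
    refine ⟨k, ?_, ?_⟩
    · rw [hS, mem_erase, Finset.mem_Icc]
      refine ⟨hk0, ?_⟩
      have h1 : k.natAbs ≤ K := by
        rw [hK]
        apply Nat.le_floor
        rw [Nat.cast_natAbs]
        simpa using hkle
      omega
    · rw [hB]
      exact mem_filter.mpr ⟨hμM, hlt⟩
  have hBcard : ∀ k ∈ S, ((B k).card : ℝ) ≤
      (N : ℝ) ^ ((1 : ℝ) / 8) * (M.card * ((N : ℝ) ^ ((1 : ℝ) / 16) * Real.sqrt (2 * N + 1) / N)) := by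
    intro k hk
    rw [hS, mem_erase, Finset.mem_Icc] at hk
    have hkK : |(k : ℝ)| ≤ (N : ℝ) ^ ((1 : ℝ) / 16) := by
      refine le_trans ?_ hKle
      rw [abs_le]
      constructor
      · have := hk.2.1
        have : (-(K : ℤ) : ℝ) ≤ k := by exact_mod_cast this
        simpa using this
      · exact_mod_cast hk.2.2
    have h1 : ((B k).card : ℝ) * (N : ℝ) ^ (-((1 : ℝ) / 8)) ≤ ∑ μ ∈ M, ‖∫ y, fourier k y ∂μ‖ ^ 2 := by
      calc ((B k).card : ℝ) * (N : ℝ) ^ (-((1 : ℝ) / 8)) = ∑ μ ∈ B k, (N : ℝ) ^ (-((1 : ℝ) / 8)) := by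
            rw [sum_const, nsmul_eq_mul]
        _ ≤ ∑ μ ∈ B k, ‖∫ y, fourier k y ∂μ‖ ^ 2 := sum_le_sum (fun μ hμ => (mem_filter.mp hμ).2.le)
        _ ≤ ∑ μ ∈ M, ‖∫ y, fourier k y ∂μ‖ ^ 2 :=
            sum_le_sum_of_subset_of_nonneg (filter_subset _ _) (fun _ _ _ => by positivity)
    have h2 := h1.trans (hm k hk.1)
    have h3 : (M.card : ℝ) * (|(k : ℝ)| * Real.sqrt (2 * N + 1) / N) ≤
        M.card * ((N : ℝ) ^ ((1 : ℝ) / 16) * Real.sqrt (2 * N + 1) / N) := by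
      gcongr
    have h4 := h2.trans h3
    have h5 : (N : ℝ) ^ ((1 : ℝ) / 8) * (N : ℝ) ^ (-((1 : ℝ) / 8)) = 1 := by
      rw [← Real.rpow_add hN0]; simp
    calc ((B k).card : ℝ) = (N : ℝ) ^ ((1 : ℝ) / 8) * (((B k).card : ℝ) * (N : ℝ) ^ (-((1 : ℝ) / 8))) := by
          rw [mul_comm ((B k).card : ℝ), ← mul_assoc, h5, one_mul]
      _ ≤ _ := mul_le_mul_of_nonneg_left h4 (by positivity)
  have hcard : (((M : Set (Measure T)) \ G).ncard : ℝ) ≤ ((S.biUnion B).card : ℝ) := by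
    have := Set.ncard_le_ncard hsub (Finset.finite_toSet _)
    rw [Set.ncard_coe_finset] at this
    exact_mod_cast this
  have hsqrt : Real.sqrt (2 * N + 1) ≤ 2 * (N : ℝ) ^ ((1 : ℝ) / 2) := by
    rw [← Real.sqrt_eq_rpow]
    have h4 : (2 : ℝ) = Real.sqrt 4 := by
      rw [show (4 : ℝ) = 2 ^ 2 by norm_num, Real.sqrt_sq (by norm_num)]
    rw [h4, ← Real.sqrt_mul (by norm_num)]
    apply Real.sqrt_le_sqrt
    rw [← h4]
    linarith
  calc (((M : Set (Measure T)) \ G).ncard : ℝ) ≤ ((S.biUnion B).card : ℝ) := hcard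
    _ ≤ ∑ k ∈ S, ((B k).card : ℝ) := by exact_mod_cast card_biUnion_le
    _ ≤ ∑ k ∈ S, (N : ℝ) ^ ((1 : ℝ) / 8) *
          (M.card * ((N : ℝ) ^ ((1 : ℝ) / 16) * Real.sqrt (2 * N + 1) / N)) := sum_le_sum hBcard
    _ = 2 * K * ((N : ℝ) ^ ((1 : ℝ) / 8) *
          (M.card * ((N : ℝ) ^ ((1 : ℝ) / 16) * Real.sqrt (2 * N + 1) / N))) := by
        rw [sum_const, nsmul_eq_mul, hScard]
    _ ≤ 2 * (N : ℝ) ^ ((1 : ℝ) / 16) * ((N : ℝ) ^ ((1 : ℝ) / 8) *
          (M.card * ((N : ℝ) ^ ((1 : ℝ) / 16) * (2 * (N : ℝ) ^ ((1 : ℝ) / 2)) / N))) := by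
        gcongr
    _ = 4 * ((N : ℝ) ^ ((1 : ℝ) / 16) * (N : ℝ) ^ ((1 : ℝ) / 8) * (N : ℝ) ^ ((1 : ℝ) / 16) *
          (N : ℝ) ^ ((1 : ℝ) / 2) * (N : ℝ) ^ (-1 : ℝ)) * M.card := by
        rw [Real.rpow_neg_one]; ring
    _ = 4 * (N : ℝ) ^ (-((1 : ℝ) / 4)) * M.card := by
        rw [← Real.rpow_add hN0, ← Real.rpow_add hN0, ← Real.rpow_add hN0, ← Real.rpow_add hN0]
        norm_num

/-! ### Convergence inside the good set -/

lemma integral_fourier {k : ℤ} (hk : k ≠ 0) : ∫ t in (0 : ℝ)..1, fourier k ((t : ℝ) : T) = 0 := by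
  have h1 : ∀ t : ℝ, fourier k ((t : ℝ) : T) = Complex.exp ((2 * Real.pi * Complex.I * k) * t) := by
    intro t
    rw [fourier_coe_apply]
    congr 1
    push_cast
    ring
  simp_rw [h1]
  have hc : (2 * Real.pi * Complex.I * k : ℂ) ≠ 0 := by
    have : (k : ℂ) ≠ 0 := by exact_mod_cast hk
    simp [Real.pi_ne_zero, this]
  rw [integral_exp_mul_complex hc]
  have h2 : Complex.exp (2 * Real.pi * Complex.I * k * ((1 : ℝ) : ℂ)) = 1 := by
    rw [Complex.exp_eq_one_iff]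
    exact ⟨k, by push_cast; ring⟩
  rw [h2]
  simp

lemma cont_coe (f : C(T, ℂ)) : Continuous (fun t : ℝ => f ((t : ℝ) : T)) :=
  f.continuous.comp (AddCircle.continuous_mk' 1)

lemma tendsto_of_good (μ : ℕ → Measure T) (hprob : ∀ n, IsProbabilityMeasure (μ n)) (hG : ∀ n, μ n ∈ G)
    (hN : Tendsto (fun n => atoms (μ n)) atTop atTop) (f : C(T, ℂ)) :
    Tendsto (fun n => ∫ x, f x ∂(μ n)) atTop (𝓝 (∫ t in (0 : ℝ)..1, f ((t : ℝ) : T))) := by
  have hNr : Tendsto (fun n => (atoms (μ n) : ℝ)) atTop atTop := tendsto_natCast_atTop_atTop.comp hN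
  have hint : ∀ (g : C(T, ℂ)) n, Integrable (fun x => g x) (μ n) := fun g n =>
    g.continuous.integrable_of_hasCompactSupport (HasCompactSupport.of_compactSpace _)
  have hint2 : ∀ (g : C(T, ℂ)), IntervalIntegrable (fun t : ℝ => g ((t : ℝ) : T)) volume 0 1 := fun g =>
    (cont_coe g).intervalIntegrable _ _
  -- the exponentials
  have hfour : ∀ k : ℤ, Tendsto (fun n => ∫ x, fourier k x ∂(μ n)) atTop
      (𝓝 (∫ t in (0 : ℝ)..1, fourier k ((t : ℝ) : T))) := by
    intro k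
    by_cases hk : k = 0
    · subst hk
      simp
    · rw [integral_fourier hk]
      rw [tendsto_zero_iff_norm_tendsto_zero]
      have h1 : ∀ᶠ n in atTop, |(k : ℝ)| ≤ (atoms (μ n) : ℝ) ^ ((1 : ℝ) / 16) :=
        ((tendsto_rpow_atTop (by norm_num : (0 : ℝ) < 1 / 16)).comp hNr).eventually_ge_atTop _
      have h2 : Tendsto (fun n => (atoms (μ n) : ℝ) ^ (-((1 : ℝ) / 8))) atTop (𝓝 0) :=
        (tendsto_rpow_neg_atTop (by norm_num : (0 : ℝ) < 1 / 8)).comp hNr
      have h3 : Tendsto (fun n => Real.sqrt ((atoms (μ n) : ℝ) ^ (-((1 : ℝ) / 8)))) atTop (𝓝 0) := by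
        have := (Real.continuous_sqrt.tendsto 0).comp h2
        simpa [Function.comp_def] using this
      refine squeeze_zero' (Eventually.of_forall (fun n => norm_nonneg _)) ?_ h3
      filter_upwards [h1] with n hn
      exact Real.le_sqrt_of_sq_le (hG n k hk hn)
  -- the span
  have hspan : ∀ P ∈ Submodule.span ℂ (Set.range (@fourier (1 : ℝ))),
      Tendsto (fun n => ∫ x, P x ∂(μ n)) atTop (𝓝 (∫ t in (0 : ℝ)..1, P ((t : ℝ) : T))) := by
    intro P hP
    induction hP using Submodule.span_induction with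
    | mem P h =>
      obtain ⟨k, rfl⟩ := h
      exact hfour k
    | zero => simp
    | add P Q _ _ hP hQ =>
      have h1 : ∀ n, ∫ x, (P + Q) x ∂(μ n) = ∫ x, P x ∂(μ n) + ∫ x, Q x ∂(μ n) := by
        intro n
        simp only [ContinuousMap.add_apply]
        exact integral_add (hint P n) (hint Q n)
      have h2 : ∫ t in (0 : ℝ)..1, (P + Q) ((t : ℝ) : T) =
          (∫ t in (0 : ℝ)..1, P ((t : ℝ) : T)) + ∫ t in (0 : ℝ)..1, Q ((t : ℝ) : T) := by
        simp only [ContinuousMap.add_apply]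
        exact intervalIntegral.integral_add (hint2 P) (hint2 Q)
      simp_rw [h1]
      rw [h2]
      exact hP.add hQ
    | smul c P _ hP =>
      have h1 : ∀ n, ∫ x, (c • P) x ∂(μ n) = c • ∫ x, P x ∂(μ n) := by
        intro n
        simp only [ContinuousMap.smul_apply]
        exact integral_smul c _
      have h2 : ∫ t in (0 : ℝ)..1, (c • P) ((t : ℝ) : T) = c • ∫ t in (0 : ℝ)..1, P ((t : ℝ) : T) := by
        simp only [ContinuousMap.smul_apply]
        exact intervalIntegral.integral_smul c _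
      simp_rw [h1]
      rw [h2]
      exact hP.const_smul c
  -- approximation
  rw [Metric.tendsto_atTop]
  intro ε hε
  have hcl : f ∈ closure ((Submodule.span ℂ (Set.range (@fourier (1 : ℝ))) : Submodule ℂ C(T, ℂ)) : Set C(T, ℂ)) := by
    have := span_fourier_closure_eq_top (T := (1 : ℝ))
    have h2 : f ∈ (Submodule.span ℂ (Set.range (@fourier (1 : ℝ)))).topologicalClosure := by
      rw [this]; trivial
    exact h2
  obtain ⟨P, hP, hfP⟩ := Metric.mem_closure_iff.mp hcl (ε / 3) (by positivity)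
  obtain ⟨n₀, hn₀⟩ := Metric.tendsto_atTop.mp (hspan P hP) (ε / 3) (by positivity)
  refine ⟨n₀, fun n hn => ?_⟩
  have hpt : ∀ x : T, ‖f x - P x‖ ≤ ε / 3 := by
    intro x
    rw [← dist_eq_norm]
    exact (ContinuousMap.dist_apply_le_dist x).trans hfP.le
  have h1 : dist (∫ x, f x ∂(μ n)) (∫ x, P x ∂(μ n)) ≤ ε / 3 := by
    rw [dist_eq_norm, ← integral_sub (hint f n) (hint P n)]
    have := norm_integral_le_of_norm_le_const (μ := μ n) (f := fun x => f x - P x) (C := ε / 3)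
      (Eventually.of_forall hpt)
    simpa using this
  have h2 : dist (∫ t in (0 : ℝ)..1, P ((t : ℝ) : T)) (∫ t in (0 : ℝ)..1, f ((t : ℝ) : T)) ≤ ε / 3 := by
    rw [dist_comm, dist_eq_norm, ← intervalIntegral.integral_sub (hint2 f) (hint2 P)]
    have := intervalIntegral.norm_integral_le_of_norm_le_const (a := (0 : ℝ)) (b := 1) (C := ε / 3)
      (f := fun t : ℝ => f ((t : ℝ) : T) - P ((t : ℝ) : T)) (fun t _ => hpt _)
    simpa using this
  have h3 := hn₀ n hn
  have h4 := dist_triangle4 (∫ x, f x ∂(μ n)) (∫ x, P x ∂(μ n)) (∫ t in (0 : ℝ)..1, P ((t : ℝ) : T))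
    (∫ t in (0 : ℝ)..1, f ((t : ℝ) : T))
  linarith

lemma tendsto_real (μ : ℕ → Measure T) (hprob : ∀ n, IsProbabilityMeasure (μ n)) (hG : ∀ n, μ n ∈ G)
    (hN : Tendsto (fun n => atoms (μ n)) atTop atTop) (f : C(T, ℝ)) :
    Tendsto (fun n => ∫ x, f x ∂(μ n)) atTop (𝓝 (∫ t in (0 : ℝ)..1, f ((t : ℝ) : T))) := by
  set g : C(T, ℂ) := ⟨fun x => (f x : ℂ), Complex.continuous_ofReal.comp f.continuous⟩ with hg
  have h := tendsto_of_good μ hprob hG hN g
  have h1 : ∀ n, ∫ x, g x ∂(μ n) = ((∫ x, f x ∂(μ n) : ℝ) : ℂ) := by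
    intro n
    exact integral_ofReal
  have h2 : ∫ t in (0 : ℝ)..1, g ((t : ℝ) : T) = ((∫ t in (0 : ℝ)..1, f ((t : ℝ) : T) : ℝ) : ℂ) := by
    exact intervalIntegral.integral_ofReal
  simp_rw [h1] at h
  rw [h2] at h
  have h3 := (Complex.continuous_re.tendsto _).comp h
  simpa [Function.comp_def] using h3

lemma mostly (M : Finset (Measure T)) {N : ℕ} (hN : 0 < N) (hM : ∀ μ ∈ M, atoms μ = N)
    (hm : ∀ k : ℤ, k ≠ 0 → ∑ μ ∈ M, ‖∫ y, fourier k y ∂μ‖ ^ 2 ≤
      M.card * (|(k : ℝ)| * Real.sqrt (2 * N + 1) / N)) : MostlyIn (M : Set (Measure T)) N G := by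
  refine ⟨Finset.finite_toSet _, hM, ?_, ?_⟩
  · rw [Set.ncard_coe_finset]
    exact bad_count M hN hM hm
  · intro k hk
    rw [Set.ncard_coe_finset, finsum_mem_coe_finset, mul_comm]
    exact hm k hk

end Pool.Agent.Lib.MP_715eb0_an
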