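import Mathlib

/-!
# Finitely supported ergodic measures invariant under `x ↦ 2x` and `x ↦ 3x`: definitions
-/

open MeasureTheory

namespace Pool.Agent.Lib.MP_715eb0_an

/-- The circle `ℝ/ℤ`. -/
abbrev T : Type := AddCircle (1 : ℝ)

/-- `μ` is one of the measures of the question: a probability measure on `ℝ/ℤ`, invariant under `x ↦ 2x` and
`x ↦ 3x`, jointly ergodic, with finite support. -/
structure Erg (μ : Measure T) : Prop where
  prob : IsProbabilityMeasure μ
  two : Measure.map (fun x : T => (2 : ℕ) • x) μ = μ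
  three : Measure.map (fun x : T => (3 : ℕ) • x) μ = μ
  erg : ∀ s : Set T, MeasurableSet s → (fun x : T => (2 : ℕ) • x) ⁻¹' s = s →
      (fun x : T => (3 : ℕ) • x) ⁻¹' s = s → μ s = 0 ∨ μ sᶜ = 0
  fin : ∃ t : Finset T, μ ((t : Set T)ᶜ) = 0

/-- The number of atoms of `μ`. -/
noncomputable def atoms (μ : Measure T) : ℕ := Set.ncard {x : T | μ {x} ≠ 0}

/-- The measures of the question with exactly `N` atoms. -/
def EN (N : ℕ) : Set (Measure T) := {μ | Erg μ ∧ atoms μ = N}

/-- The measures of the question that have an atom of order `q`. -/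
def EQ (q : ℕ) : Set (Measure T) := {μ | Erg μ ∧ ∃ x : T, μ {x} ≠ 0 ∧ addOrderOf x = q}

/-- `F` is a finite family whose members have `N` atoms each; all but `4 N ^ (-1/4) |F|` of them lie in `H`, and the
mean over `F` of the square of the `k`-th Fourier coefficient is at most `|k| √(2N+1) / N`, for all `k ≠ 0`. -/
def MostlyIn (F : Set (Measure T)) (N : ℕ) (H : Set (Measure T)) : Prop :=
  F.Finite ∧ (∀ μ ∈ F, atoms μ = N) ∧
  ((F \ H).ncard : ℝ) ≤ 4 * (N : ℝ) ^ (-((1 : ℝ) / 4)) * F.ncard ∧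
  ∀ k : ℤ, k ≠ 0 → ∑ᶠ μ ∈ F, ‖∫ x, fourier k x ∂μ‖ ^ 2 ≤ (|(k : ℝ)| * Real.sqrt (2 * N + 1) / N) * F.ncard

end Pool.Agent.Lib.MP_715eb0_an
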